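import Mathlib

/-! The orthonormal basis of `L²(0,π)` made of `√(2/π) sin(nx)`, `√(2/π) cos(nx)`, `n` odd. -/

open Filter Topology Set MeasureTheory
open scoped InnerProductSpace ENNReal ComplexConjugate

namespace V11196.BB

noncomputable section

/-- Lebesgue measure on `(0,π)` -/
abbrev mu : Measure ℝ := volume.restrict (Ioo 0 Real.pi)

/-- frequencies `1,1,3,3,5,5,…` -/
def freq (j : ℕ) : ℕ := 2 * (j / 2) + 1

/-- phases: `0` means a sine, `π/2` means a cosine -/
def ph (j : ℕ) : ℝ := if j = 0 ∨ (2 ≤ j ∧ j % 2 = 1) then 0 else Real.pi / 2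

/-- real basis functions -/
def e (j : ℕ) (x : ℝ) : ℝ := √(2 / Real.pi) * Real.sin (freq j * x + ph j)

/-- basis functions, complex valued -/
def phi (j : ℕ) (x : ℝ) : ℂ := (e j x : ℂ)

lemma continuous_e (j : ℕ) : Continuous (e j) := by
  unfold e
  fun_prop

lemma continuous_phi (j : ℕ) : Continuous (phi j) :=
  Complex.continuous_ofReal.comp (continuous_e j)

lemma abs_e_le (j : ℕ) (x : ℝ) : |e j x| ≤ √(2 / Real.pi) := by
  unfold e
  rw [abs_mul, abs_of_nonneg (Real.sqrt_nonneg _)]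
  have := Real.abs_sin_le_one (freq j * x + ph j)
  have h2 := Real.sqrt_nonneg (2 / Real.pi)
  nlinarith

lemma memLp_phi (j : ℕ) : MemLp (phi j) 2 mu := by
  refine MemLp.of_bound (continuous_phi j).aestronglyMeasurable (√(2 / Real.pi)) ?_
  filter_upwards with x
  simpa [phi] using abs_e_le j x

/-- basis vectors -/
def vec (j : ℕ) : Lp ℂ 2 mu := (memLp_phi j).toLp

lemma vec_coe (j : ℕ) : (vec j : ℝ → ℂ) =ᵐ[mu] phi j := (memLp_phi j).coeFn_toLp

lemma integral_mu_eq {F : Type*} [NormedAddCommGroup F] [NormedSpace ℝ F] (f : ℝ → F) :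
    ∫ x, f x ∂mu = ∫ x in (0:ℝ)..Real.pi, f x := by
  rw [intervalIntegral.integral_of_le Real.pi_pos.le, integral_Ioc_eq_integral_Ioo]

lemma int_cos_zero (k : ℤ) (hk : k ≠ 0) (r : ℝ) :
    ∫ x in (0:ℝ)..Real.pi, Real.cos ((2 * k : ℝ) * x + r) = 0 := by
  have hk' : (2 * k : ℝ) ≠ 0 := by
    have : (k : ℝ) ≠ 0 := by exact_mod_cast hk
    positivity
  rw [intervalIntegral.integral_comp_mul_add (fun x => Real.cos x) hk' r, integral_cos]
  have h1 : (2 * k : ℝ) * Real.pi + r = r + k * (2 * Real.pi) := by ring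
  rw [h1, Real.sin_add_int_mul_two_pi]
  simp

lemma int_e_mul (i j : ℕ) :
    ∫ x in (0:ℝ)..Real.pi, e i x * e j x = if i = j then 1 else 0 := by
  have hpi := Real.pi_pos
  obtain ⟨A, hA, hA'⟩ : ∃ A : ℤ, (freq i : ℝ) = 2 * A + 1 ∧ A = ((i / 2 : ℕ) : ℤ) :=
    ⟨((i / 2 : ℕ) : ℤ), by unfold freq; rw [Int.cast_natCast]; push_cast; ring, rfl⟩
  obtain ⟨B, hB, hB'⟩ : ∃ B : ℤ, (freq j : ℝ) = 2 * B + 1 ∧ B = ((j / 2 : ℕ) : ℤ) :=
    ⟨((j / 2 : ℕ) : ℤ), by unfold freq; rw [Int.cast_natCast]; push_cast; ring, rfl⟩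
  have hpt : ∀ x, e i x * e j x =
      (1 / Real.pi) * Real.cos ((2 * ((A - B : ℤ) : ℝ)) * x + (ph i - ph j))
        - (1 / Real.pi) * Real.cos ((2 * ((A + B + 1 : ℤ) : ℝ)) * x + (ph i + ph j)) := by
    intro x
    have h1 : (2 * ((A - B : ℤ) : ℝ)) * x + (ph i - ph j)
        = (freq i * x + ph i) - (freq j * x + ph j) := by
      rw [hA, hB]; push_cast; ring
    have h2 : (2 * ((A + B + 1 : ℤ) : ℝ)) * x + (ph i + ph j)
        = (freq i * x + ph i) + (freq j * x + ph j) := by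
      rw [hA, hB]; push_cast; ring
    rw [h1, h2]
    unfold e
    generalize (freq i : ℝ) * x + ph i = P
    generalize (freq j : ℝ) * x + ph j = Q
    rw [Real.cos_sub, Real.cos_add]
    have h3 : √(2 / Real.pi) * √(2 / Real.pi) = 2 / Real.pi := Real.mul_self_sqrt (by positivity)
    calc _ = (√(2 / Real.pi) * √(2 / Real.pi)) * (Real.sin P * Real.sin Q) := by ring
      _ = _ := by rw [h3]; ring
  simp_rw [hpt]
  rw [intervalIntegral.integral_sub (by apply Continuous.intervalIntegrable; fun_prop)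
    (by apply Continuous.intervalIntegrable; fun_prop), intervalIntegral.integral_const_mul,
    intervalIntegral.integral_const_mul]
  rw [int_cos_zero (A + B + 1) (by omega)]
  by_cases hij : i / 2 = j / 2
  · have h0 : (2 * ((A - B : ℤ) : ℝ)) = 0 := by
      rw [hA', hB', hij]; simp
    simp_rw [h0]
    simp only [zero_mul, zero_add, intervalIntegral.integral_const, sub_zero, smul_eq_mul, mul_zero]
    by_cases h : i = j
    · subst h
      simp
    · have hcos : Real.cos (ph i - ph j) = 0 := by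
        unfold ph
        split_ifs with h1 h2 h2
        · exfalso; omega
        · simp
        · simp
        · exfalso; omega
      rw [hcos, if_neg h]
      simp
  · rw [int_cos_zero _ (by omega)]
    have : i ≠ j := by rintro rfl; exact hij rfl
    simp [this]

lemma inner_vec_eq (j : ℕ) (f : Lp ℂ 2 mu) :
    ⟪vec j, f⟫_ℂ = ∫ x, (e j x : ℂ) * f x ∂mu := by
  rw [L2.inner_def]
  apply integral_congr_ae
  filter_upwards [vec_coe j] with x hx
  rw [hx]
  simp [phi, mul_comm]

lemma orthonormal_vec : Orthonormal ℂ vec := by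
  rw [orthonormal_iff_ite]
  intro i j
  rw [inner_vec_eq]
  have h1 : ∫ x, (e i x : ℂ) * vec j x ∂mu = ∫ x, ((e i x * e j x : ℝ) : ℂ) ∂mu := by
    apply integral_congr_ae
    filter_upwards [vec_coe j] with x hx
    rw [hx]
    simp [phi]
  rw [h1, integral_complex_ofReal, integral_mu_eq, int_e_mul]
  split_ifs <;> simp

lemma integrable_mul (f : Lp ℂ 2 mu) (g : ℝ → ℂ) (hg : Continuous g) (C : ℝ)
    (hC : ∀ x, ‖g x‖ ≤ C) : Integrable (fun x => g x * f x) mu := by
  have hf : Integrable f mu := (Lp.memLp f).integrable (by norm_num)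
  exact hf.bdd_mul hg.aestronglyMeasurable (Eventually.of_forall hC)

/-- `∫ f e^{inx} = 0` for all odd `n` when `f ⟂ vec`. -/
lemma int_exp_zero (f : Lp ℂ 2 mu) (hf : ∀ j, ⟪vec j, f⟫_ℂ = 0) (k : ℤ) :
    ∫ x, Complex.exp ((2 * k + 1 : ℂ) * x * Complex.I) * f x ∂mu = 0 := by
  have hpi := Real.pi_pos
  have hsq : √(2 / Real.pi) ≠ 0 := by positivity
  -- sine and cosine integrals vanish
  have hj : ∀ j, ∫ x, ((Real.sin (freq j * x + ph j) : ℝ) : ℂ) * f x ∂mu = 0 := by
    intro j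
    have h1 := hf j
    rw [inner_vec_eq] at h1
    have h2 : ∀ x, (e j x : ℂ) * f x = ((√(2 / Real.pi) : ℝ) : ℂ) *
        (((Real.sin (freq j * x + ph j) : ℝ) : ℂ) * f x) := by
      intro x
      unfold e
      push_cast
      ring
    simp_rw [h2] at h1
    rw [integral_const_mul] at h1
    rcases mul_eq_zero.mp h1 with h3 | h3
    · exact absurd h3 (by exact_mod_cast hsq)
    · exact h3
  have hs : ∀ m : ℕ, ∫ x, ((Real.sin ((2 * m + 1 : ℝ) * x) : ℝ) : ℂ) * f x ∂mu = 0 := by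
    intro m
    rcases Nat.eq_zero_or_pos m with hm | hm
    · have := hj 0
      simpa [freq, ph, hm] using this
    · have := hj (2 * m + 1)
      have h1 : freq (2 * m + 1) = 2 * m + 1 := by unfold freq; omega
      have h2 : ph (2 * m + 1) = 0 := by
        unfold ph
        rw [if_pos]
        omega
      rw [h1, h2] at this
      simpa using this
  have hc : ∀ m : ℕ, ∫ x, ((Real.cos ((2 * m + 1 : ℝ) * x) : ℝ) : ℂ) * f x ∂mu = 0 := by
    intro m
    rcases Nat.eq_zero_or_pos m with hm | hm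
    · have := hj 1
      have h2 : ph 1 = Real.pi / 2 := by
        unfold ph
        rw [if_neg]
        omega
      rw [h2] at this
      simpa [freq, hm, Real.sin_add_pi_div_two] using this
    · have := hj (2 * m)
      have h1 : freq (2 * m) = 2 * m + 1 := by unfold freq; omega
      have h2 : ph (2 * m) = Real.pi / 2 := by
        unfold ph
        rw [if_neg]
        omega
      rw [h1, h2] at this
      simpa [Real.sin_add_pi_div_two] using this
  have key : ∀ (m : ℕ) (s : ℂ), ∫ x, (((Real.cos ((2 * m + 1 : ℝ) * x) : ℝ) : ℂ) +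
      s * ((Real.sin ((2 * m + 1 : ℝ) * x) : ℝ) : ℂ)) * f x ∂mu = 0 := by
    intro m s
    have h1 : ∀ x, (((Real.cos ((2 * m + 1 : ℝ) * x) : ℝ) : ℂ) +
      s * ((Real.sin ((2 * m + 1 : ℝ) * x) : ℝ) : ℂ)) * f x =
      ((Real.cos ((2 * m + 1 : ℝ) * x) : ℝ) : ℂ) * f x + s *
        (((Real.sin ((2 * m + 1 : ℝ) * x) : ℝ) : ℂ) * f x) := by intro x; ring
    simp_rw [h1]
    rw [integral_add, integral_const_mul, hs, hc]
    · simp
    · refine integrable_mul f (fun x => ((Real.cos ((2 * m + 1 : ℝ) * x) : ℝ) : ℂ)) (by fun_prop)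
        1 ?_
      intro x
      rw [Complex.norm_real]
      exact Real.abs_cos_le_one ((2 * m + 1 : ℝ) * x)
    · apply Integrable.const_mul
      refine integrable_mul f (fun x => ((Real.sin ((2 * m + 1 : ℝ) * x) : ℝ) : ℂ)) (by fun_prop)
        1 ?_
      intro x
      rw [Complex.norm_real]
      exact Real.abs_sin_le_one ((2 * m + 1 : ℝ) * x)
  rcases le_or_gt 0 k with hk | hk
  · obtain ⟨m, rfl⟩ := Int.eq_ofNat_of_zero_le hk
    rw [← key m Complex.I]
    congr 1
    ext x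
    congr 1
    have h1 : (2 * ((m : ℤ) : ℂ) + 1) * (x : ℂ) * Complex.I
        = (((2 * m + 1 : ℝ) * x : ℝ) : ℂ) * Complex.I := by push_cast; ring
    rw [h1, Complex.exp_mul_I, ← Complex.ofReal_cos, ← Complex.ofReal_sin]
    ring
  · obtain ⟨m, hm⟩ := Int.eq_ofNat_of_zero_le (show 0 ≤ -k - 1 by omega)
    have hkm : k = -(m : ℤ) - 1 := by omega
    rw [← key m (-Complex.I)]
    congr 1
    ext x
    congr 1
    have h1 : (2 * (k : ℂ) + 1) * (x : ℂ) * Complex.I
        = ((-((2 * m + 1 : ℝ) * x) : ℝ) : ℂ) * Complex.I := by rw [hkm]; push_cast; ring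
    rw [h1, Complex.exp_mul_I, ← Complex.ofReal_cos, ← Complex.ofReal_sin, Real.cos_neg,
      Real.sin_neg]
    push_cast
    ring

lemma complete_vec (f : Lp ℂ 2 mu) (hf : ∀ j, ⟪vec j, f⟫_ℂ = 0) : f = 0 := by
  have hpi := Real.pi_pos
  set g : ℝ → ℂ := fun x => Complex.exp (-(x * Complex.I)) * f x with hg
  have hng : ∀ x, ‖g x‖ = ‖f x‖ := by
    intro x
    rw [hg]
    simp only [norm_mul]
    have : ‖Complex.exp (-((x:ℂ) * Complex.I))‖ = 1 := by
      have := Complex.norm_exp_ofReal_mul_I (-x)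
      rw [← this]; congr 2; push_cast; ring
    rw [this, one_mul]
  have hres : volume.restrict (Ioc (0:ℝ) Real.pi) = mu := by
    exact (restrict_Ioo_eq_restrict_Ioc).symm
  have hgm : AEStronglyMeasurable g mu := by
    apply AEStronglyMeasurable.mul
    · apply Continuous.aestronglyMeasurable; fun_prop
    · exact Lp.aestronglyMeasurable f
  have hL2 : MemLp g 2 (volume.restrict (Ioc (0:ℝ) Real.pi)) := by
    rw [hres]
    exact (Lp.memLp f).of_le hgm (Eventually.of_forall fun x => (hng x).le)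
  have h1 := hasSum_sq_fourierCoeffOn (f := g) hpi hL2
  have h2 : ∀ n : ℤ, fourierCoeffOn hpi g n = 0 := by
    intro n
    rw [fourierCoeffOn_eq_integral]
    have h3 : ∫ x in (0:ℝ)..Real.pi, (fourier (-n) (x : AddCircle (Real.pi - 0)) : ℂ) • g x = 0 := by
      rw [← integral_mu_eq]
      rw [← int_exp_zero f hf (-n - 1)]
      congr 1
      ext x
      rw [fourier_coe_apply, hg, smul_eq_mul, ← mul_assoc, ← Complex.exp_add]
      congr 2
      have hpi' : (Real.pi : ℂ) ≠ 0 := by exact_mod_cast hpi.ne'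
      push_cast
      field_simp
      ring
    rw [h3]
    simp
  simp only [h2, norm_zero, ne_eq, OfNat.ofNat_ne_zero, not_false_eq_true, zero_pow] at h1
  have h4 := h1.unique hasSum_zero
  have h5 : ∫ x in (0:ℝ)..Real.pi, ‖g x‖ ^ 2 = 0 := by
    rcases smul_eq_zero.mp h4 with h | h
    · exfalso
      have : (Real.pi - 0)⁻¹ ≠ 0 := by
        apply inv_ne_zero; linarith
      exact this h
    · exact h
  have h6 : ‖f‖ ^ 2 = 0 := by
    have h7 : (⟪f, f⟫_ℂ) = ((∫ x, ‖f x‖ ^ 2 ∂mu : ℝ) : ℂ) := by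
      rw [L2.inner_def, ← integral_complex_ofReal]
      congr 1
      ext x
      rw [inner_self_eq_norm_sq_to_K]
      simp
    rw [inner_self_eq_norm_sq_to_K] at h7
    have h8 : ‖f‖ ^ 2 = ∫ x, ‖f x‖ ^ 2 ∂mu := by
      apply Complex.ofReal_injective
      rw [← h7]
      simp
    calc ‖f‖ ^ 2 = ∫ x in (0:ℝ)..Real.pi, ‖f x‖ ^ 2 := by rw [h8, integral_mu_eq]
      _ = ∫ x in (0:ℝ)..Real.pi, ‖g x‖ ^ 2 := by simp_rw [hng]
      _ = 0 := h5
  simpa using h6

/-- the Hilbert basis -/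
def hb : HilbertBasis ℕ ℂ (Lp ℂ 2 mu) :=
  HilbertBasis.mkOfOrthogonalEqBot orthonormal_vec (by
    rw [Submodule.eq_bot_iff]
    intro f hf
    apply complete_vec
    intro j
    exact (Submodule.mem_orthogonal _ _).mp hf (vec j) (Submodule.subset_span ⟨j, rfl⟩))

lemma hb_apply (j : ℕ) : hb j = vec j := by
  rw [hb, HilbertBasis.coe_mkOfOrthogonalEqBot]

lemma hb_coe (j : ℕ) : (hb j : ℝ → ℂ) =ᵐ[mu] phi j := by
  rw [hb_apply]; exact vec_coe j

end

end V11196.BB
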