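import Pool.Agent.V11196.BB.Mult

/-! The explicit profile and the two-sided estimate of its observability constant. -/

open Filter Topology Set MeasureTheory
open scoped InnerProductSpace ENNReal ComplexConjugate

namespace V11196.BB

noncomputable section

/-- `e⁻¹` -/
def uu : ℝ := Real.exp (-1)

/-- amplitude -/
def del : ℝ := (1 - uu) / (3 + uu)

/-- the profile -/
def astar (x : ℝ) : ℝ := 1 / 2 - del * Real.cos (2 * x)

/-- eigenvalues -/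
def lam : ℕ → ℂ
  | 0 => -1
  | 1 => -1 / 2
  | 2 => 1 / 2 + 2 * Real.pi * Complex.I
  | 3 => 1 + 2 * Real.pi * Complex.I
  | (n + 4) => n + 4

lemma uu_pos : 0 < uu := Real.exp_pos _

lemma uu_lt : uu < 1 := by
  unfold uu
  rw [Real.exp_lt_one_iff]; norm_num

lemma uu_gt : 1 / 3 < uu := by
  unfold uu
  rw [Real.exp_neg, ← one_div]
  apply one_div_lt_one_div_of_lt (Real.exp_pos 1)
  exact Real.exp_one_lt_d9.trans (by norm_num)

lemma del_pos : 0 < del := by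
  unfold del
  have := uu_pos; have := uu_lt
  apply div_pos <;> linarith

lemma del_lt : del < 1 / 2 := by
  unfold del
  have := uu_pos; have := uu_lt
  rw [div_lt_div_iff₀ (by linarith) (by norm_num)]
  linarith

lemma astar_pos (x : ℝ) : 0 < astar x := by
  unfold astar
  have h1 := Real.cos_le_one (2 * x)
  have h2 := del_pos
  have h3 := del_lt
  nlinarith

lemma astar_lt (x : ℝ) : astar x < 1 := by
  unfold astar
  have h1 := Real.neg_one_le_cos (2 * x)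
  have h2 := del_pos
  have h3 := del_lt
  nlinarith

lemma astar_ge (x : ℝ) : 1 / 2 - del ≤ astar x := by
  unfold astar
  have h1 := Real.cos_le_one (2 * x)
  have h2 := del_pos
  nlinarith

lemma astar_cont : Continuous astar := by unfold astar; fun_prop

lemma astar_meas : AEStronglyMeasurable astar mu := astar_cont.aestronglyMeasurable

lemma astar_b : ∀ᵐ x ∂mu, 0 ≤ astar x ∧ astar x ≤ 1 :=
  Eventually.of_forall fun x => ⟨(astar_pos x).le, (astar_lt x).le⟩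

/-- multiplication by the profile -/
abbrev MM : Lp ℂ 2 mu →L[ℂ] Lp ℂ 2 mu := mulOp astar astar_meas astar_b

lemma e_zero (x : ℝ) : e 0 x = √(2 / Real.pi) * Real.sin x := by
  simp [e, freq, ph]

lemma e_one (x : ℝ) : e 1 x = √(2 / Real.pi) * Real.cos x := by
  simp [e, freq, ph, Real.sin_add_pi_div_two]

lemma e_two (x : ℝ) : e 2 x = √(2 / Real.pi) * Real.cos (3 * x) := by
  have h : freq 2 = 3 := rfl
  simp [e, h, ph, Real.sin_add_pi_div_two]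

lemma e_three (x : ℝ) : e 3 x = √(2 / Real.pi) * Real.sin (3 * x) := by
  have h : freq 3 = 3 := rfl
  simp [e, h, ph]

lemma astar_e0 (x : ℝ) : astar x * e 0 x = (1 / 2 + del / 2) * e 0 x - del / 2 * e 3 x := by
  rw [e_zero, e_three, Real.sin_three_mul, astar, Real.cos_two_mul]
  have h := Real.sin_sq_add_cos_sq x
  have h2 : Real.cos x ^ 2 = 1 - Real.sin x ^ 2 := by linarith
  rw [h2]; ring

lemma astar_e1 (x : ℝ) : astar x * e 1 x = (1 / 2 - del / 2) * e 1 x - del / 2 * e 2 x := by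
  rw [e_one, e_two, Real.cos_three_mul, astar, Real.cos_two_mul]
  ring

lemma MM_hb0 : MM (hb 0) = ((1 / 2 + del / 2 : ℝ) : ℂ) • hb 0 - ((del / 2 : ℝ) : ℂ) • hb 3 := by
  apply Lp.ext
  filter_upwards [mulOp_coe astar astar_meas astar_b (hb 0), hb_coe 0, hb_coe 3,
    Lp.coeFn_sub (((1 / 2 + del / 2 : ℝ) : ℂ) • hb 0) (((del / 2 : ℝ) : ℂ) • hb 3),
    Lp.coeFn_smul ((1 / 2 + del / 2 : ℝ) : ℂ) (hb 0),
    Lp.coeFn_smul ((del / 2 : ℝ) : ℂ) (hb 3)] with x h1 h2 h3 h4 h5 h6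
  rw [h1, h4, Pi.sub_apply, h5, h6, Pi.smul_apply, Pi.smul_apply, h2, h3, smul_eq_mul,
    smul_eq_mul]
  unfold phi
  exact_mod_cast astar_e0 x

lemma MM_hb1 : MM (hb 1) = ((1 / 2 - del / 2 : ℝ) : ℂ) • hb 1 - ((del / 2 : ℝ) : ℂ) • hb 2 := by
  apply Lp.ext
  filter_upwards [mulOp_coe astar astar_meas astar_b (hb 1), hb_coe 1, hb_coe 2,
    Lp.coeFn_sub (((1 / 2 - del / 2 : ℝ) : ℂ) • hb 1) (((del / 2 : ℝ) : ℂ) • hb 2),
    Lp.coeFn_smul ((1 / 2 - del / 2 : ℝ) : ℂ) (hb 1),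
    Lp.coeFn_smul ((del / 2 : ℝ) : ℂ) (hb 2)] with x h1 h2 h3 h4 h5 h6
  rw [h1, h4, Pi.sub_apply, h5, h6, Pi.smul_apply, Pi.smul_apply, h2, h3, smul_eq_mul,
    smul_eq_mul]
  unfold phi
  exact_mod_cast astar_e1 x

lemma inner_hb (i j : ℕ) : ⟪hb i, hb j⟫_ℂ = if i = j then 1 else 0 :=
  orthonormal_iff_ite.mp hb.orthonormal i j

lemma pointwise_bound (z : Lp ℂ 2 mu) :
    (1 / 2 + del / 2) * ‖hb.repr z 0‖ ^ 2 + (1 / 2 - del / 2) * ‖hb.repr z 1‖ ^ 2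
      - del * (conj (hb.repr z 0) * hb.repr z 3 + conj (hb.repr z 1) * hb.repr z 2).re
      + (1 / 2 - del) * (‖z‖ ^ 2 - ‖hb.repr z 0‖ ^ 2 - ‖hb.repr z 1‖ ^ 2) ≤ NN astar z := by
  set z0 := hb.repr z 0 with hz0
  set z1 := hb.repr z 1 with hz1
  set z2 := hb.repr z 2 with hz2
  set z3 := hb.repr z 3 with hz3
  set w : Lp ℂ 2 mu := z0 • hb 0 + z1 • hb 1 with hw
  have hi0 : ⟪hb 0, z⟫_ℂ = z0 := (hb.repr_apply_apply z 0).symm
  have hi1 : ⟪hb 1, z⟫_ℂ = z1 := (hb.repr_apply_apply z 1).symm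
  have hi2 : ⟪hb 2, z⟫_ℂ = z2 := (hb.repr_apply_apply z 2).symm
  have hi3 : ⟪hb 3, z⟫_ℂ = z3 := (hb.repr_apply_apply z 3).symm
  have hlow := NN_lower astar astar_meas astar_b (1 / 2 - del)
    (Eventually.of_forall astar_ge) (z - w)
  have hMw : MM w = z0 • (((1 / 2 + del / 2 : ℝ) : ℂ) • hb 0 - ((del / 2 : ℝ) : ℂ) • hb 3)
      + z1 • (((1 / 2 - del / 2 : ℝ) : ℂ) • hb 1 - ((del / 2 : ℝ) : ℂ) • hb 2) := by
    rw [hw, map_add, map_smul, map_smul, MM_hb0, MM_hb1]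
  have e1 : ⟪MM w, z⟫_ℂ = ((1 / 2 + del / 2) * ‖z0‖ ^ 2 + (1 / 2 - del / 2) * ‖z1‖ ^ 2 : ℝ)
      - ((del / 2 : ℝ) : ℂ) * (conj z0 * z3 + conj z1 * z2) := by
    rw [hMw]
    simp only [inner_add_left, inner_smul_left, inner_sub_left, hi0, hi1, hi2, hi3]
    have n0 : ((‖z0‖ : ℝ) : ℂ) ^ 2 = conj z0 * z0 := (Complex.conj_mul' z0).symm
    have n1 : ((‖z1‖ : ℝ) : ℂ) ^ 2 = conj z1 * z1 := (Complex.conj_mul' z1).symm
    push_cast
    rw [n0, n1]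
    simp only [Complex.conj_ofReal, map_add, map_sub, map_div₀, map_one, map_ofNat]
    ring
  have e2 : ⟪MM w, w⟫_ℂ = ((1 / 2 + del / 2) * ‖z0‖ ^ 2 + (1 / 2 - del / 2) * ‖z1‖ ^ 2 : ℝ) := by
    rw [hMw, hw]
    simp only [inner_add_left, inner_smul_left, inner_sub_left, inner_add_right, inner_smul_right,
      inner_hb]
    have n0 : ((‖z0‖ : ℝ) : ℂ) ^ 2 = conj z0 * z0 := (Complex.conj_mul' z0).symm
    have n1 : ((‖z1‖ : ℝ) : ℂ) ^ 2 = conj z1 * z1 := (Complex.conj_mul' z1).symm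
    push_cast
    rw [n0, n1]
    have h2c : (conj (2:ℂ)) = 2 := Complex.conj_ofReal 2
    simp [Complex.conj_ofReal, h2c]
    ring
  have e3 : ⟪w, z⟫_ℂ = ((‖z0‖ ^ 2 + ‖z1‖ ^ 2 : ℝ) : ℂ) := by
    rw [hw]
    simp only [inner_add_left, inner_smul_left, hi0, hi1]
    have n0 : ((‖z0‖ : ℝ) : ℂ) ^ 2 = conj z0 * z0 := (Complex.conj_mul' z0).symm
    have n1 : ((‖z1‖ : ℝ) : ℂ) ^ 2 = conj z1 * z1 := (Complex.conj_mul' z1).symm
    push_cast
    rw [n0, n1]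
  have e4 : ⟪w, w⟫_ℂ = ((‖z0‖ ^ 2 + ‖z1‖ ^ 2 : ℝ) : ℂ) := by
    rw [hw]
    simp only [inner_add_left, inner_smul_left, inner_add_right, inner_smul_right, inner_hb]
    have n0 : ((‖z0‖ : ℝ) : ℂ) ^ 2 = conj z0 * z0 := (Complex.conj_mul' z0).symm
    have n1 : ((‖z1‖ : ℝ) : ℂ) ^ 2 = conj z1 * z1 := (Complex.conj_mul' z1).symm
    push_cast
    rw [n0, n1]
    simp
    ring
  have hn : ‖z - w‖ ^ 2 = ‖z‖ ^ 2 - ‖z0‖ ^ 2 - ‖z1‖ ^ 2 := by
    have h1 : ‖z - w‖ ^ 2 = ‖z‖ ^ 2 - 2 * (⟪z, w⟫_ℂ).re + ‖w‖ ^ 2 := norm_sub_sq (𝕜 := ℂ) z w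
    have h2 : (⟪z, w⟫_ℂ).re = (⟪w, z⟫_ℂ).re := inner_re_symm (𝕜 := ℂ) z w
    have h3 : ‖w‖ ^ 2 = (⟪w, w⟫_ℂ).re := by
      rw [inner_self_eq_norm_sq_to_K]
      norm_cast
    rw [h1, h2, h3, e3, e4, Complex.ofReal_re]
    ring
  have hNN : NN astar (z - w) = NN astar z - 2 * (⟪MM w, z⟫_ℂ).re + (⟪MM w, w⟫_ℂ).re := by
    have h1 := NN_eq astar astar_meas astar_b (z - w)
    have h2 := NN_eq astar astar_meas astar_b z
    have h3 := mulOp_symm astar astar_meas astar_b w z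
    have h4 := mulOp_symm astar astar_meas astar_b w w
    have h5 : (⟪z, MM w⟫_ℂ).re = (⟪MM w, z⟫_ℂ).re := inner_re_symm (𝕜 := ℂ) _ _
    have h6 : NN astar (z - w) = (⟪z - w, MM (z - w)⟫_ℂ).re := by
      rw [← h1, Complex.ofReal_re]
    have h7 : NN astar z = (⟪z, MM z⟫_ℂ).re := by
      rw [← h2, Complex.ofReal_re]
    rw [h6, h7, map_sub, inner_sub_left, inner_sub_right, inner_sub_right, h3, h4]
    simp only [Complex.sub_re]
    rw [h5]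
    ring
  rw [hn, hNN, e1, e2] at hlow
  simp only [Complex.sub_re, Complex.ofReal_re, Complex.re_ofReal_mul] at hlow
  linarith

end

end V11196.BB
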