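import Pool.Agent.V11196.BB.Semi
import Pool.Agent.V11196.BB.Basis

/-! The observation form `∫ a |y|²` and the two bounds. -/

open Filter Topology Set MeasureTheory
open scoped InnerProductSpace ENNReal ComplexConjugate

namespace V11196.BB

noncomputable section

/-- `∫ a |y|²` -/
def NN (a : ℝ → ℝ) (y : Lp ℂ 2 mu) : ℝ := ∫ x, a x * ‖y x‖ ^ 2 ∂mu

section mulop
variable (a : ℝ → ℝ) (ha : AEStronglyMeasurable a mu) (hb01 : ∀ᵐ x ∂mu, 0 ≤ a x ∧ a x ≤ 1)

include ha hb01 in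
lemma memLp_mul (y : Lp ℂ 2 mu) : MemLp (fun x => (a x : ℂ) * y x) 2 mu := by
  refine (Lp.memLp y).of_le ?_ ?_
  · exact (Complex.continuous_ofReal.comp_aestronglyMeasurable ha).mul (Lp.aestronglyMeasurable y)
  · filter_upwards [hb01] with x hx
    rw [norm_mul, Complex.norm_real, Real.norm_eq_abs, abs_of_nonneg hx.1]
    have := norm_nonneg (y x)
    nlinarith [hx.2]

/-- multiplication by `a` -/
def mulOp : Lp ℂ 2 mu →L[ℂ] Lp ℂ 2 mu :=
  LinearMap.mkContinuous
    { toFun := fun y => (memLp_mul a ha hb01 y).toLp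
      map_add' := by
        intro y z
        apply Lp.ext
        filter_upwards [(memLp_mul a ha hb01 (y + z)).coeFn_toLp,
          (memLp_mul a ha hb01 y).coeFn_toLp, (memLp_mul a ha hb01 z).coeFn_toLp,
          Lp.coeFn_add y z, Lp.coeFn_add (memLp_mul a ha hb01 y).toLp
            (memLp_mul a ha hb01 z).toLp] with x h1 h2 h3 h4 h5
        rw [h1, h5, Pi.add_apply, h2, h3, h4, Pi.add_apply, mul_add]
      map_smul' := by
        intro c y
        apply Lp.ext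
        filter_upwards [(memLp_mul a ha hb01 (c • y)).coeFn_toLp,
          (memLp_mul a ha hb01 y).coeFn_toLp,
          Lp.coeFn_smul c y, Lp.coeFn_smul c (memLp_mul a ha hb01 y).toLp] with x h1 h2 h4 h5
        simp only [RingHom.id_apply]
        rw [h1, h5, Pi.smul_apply, h2, h4, Pi.smul_apply, smul_eq_mul, smul_eq_mul]
        ring } 1 (by
      intro y
      rw [one_mul]
      apply Lp.norm_le_norm_of_ae_le
      filter_upwards [(memLp_mul a ha hb01 y).coeFn_toLp, hb01] with x h1 hx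
      change ‖((memLp_mul a ha hb01 y).toLp : ℝ → ℂ) x‖ ≤ _
      rw [h1, norm_mul, Complex.norm_real, Real.norm_eq_abs, abs_of_nonneg hx.1]
      have := norm_nonneg (y x)
      nlinarith [hx.2])

lemma mulOp_coe (y : Lp ℂ 2 mu) :
    (mulOp a ha hb01 y : ℝ → ℂ) =ᵐ[mu] fun x => (a x : ℂ) * y x :=
  (memLp_mul a ha hb01 y).coeFn_toLp

lemma inner_mulOp (y z : Lp ℂ 2 mu) :
    ⟪y, mulOp a ha hb01 z⟫_ℂ = ∫ x, (a x : ℂ) * (conj (y x) * z x) ∂mu := by
  rw [L2.inner_def]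
  apply integral_congr_ae
  filter_upwards [mulOp_coe a ha hb01 z] with x hx
  rw [hx]
  simp
  ring

lemma mulOp_symm (y z : Lp ℂ 2 mu) :
    ⟪y, mulOp a ha hb01 z⟫_ℂ = ⟪mulOp a ha hb01 y, z⟫_ℂ := by
  rw [L2.inner_def, L2.inner_def]
  apply integral_congr_ae
  filter_upwards [mulOp_coe a ha hb01 z, mulOp_coe a ha hb01 y] with x hx hy
  rw [hx, hy]
  simp
  ring

lemma NN_eq (y : Lp ℂ 2 mu) : ((NN a y : ℝ) : ℂ) = ⟪y, mulOp a ha hb01 y⟫_ℂ := by
  rw [inner_mulOp, NN, ← integral_complex_ofReal]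
  congr 1
  ext x
  push_cast
  congr 1
  rw [mul_comm, Complex.mul_conj, Complex.normSq_eq_norm_sq]
  simp

include ha hb01 in
lemma NN_continuous : Continuous (NN a) := by
  have h : NN a = fun y => (⟪y, mulOp a ha hb01 y⟫_ℂ).re := by
    ext y
    rw [← NN_eq, Complex.ofReal_re]
  rw [h]
  exact Complex.continuous_re.comp (continuous_id.inner (mulOp a ha hb01).continuous)

include ha hb01 in
lemma NN_lower (m : ℝ) (hm : ∀ᵐ x ∂mu, m ≤ a x) (y : Lp ℂ 2 mu) :
    m * ‖y‖ ^ 2 ≤ NN a y := by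
  have h8 : ‖y‖ ^ 2 = ∫ x, ‖y x‖ ^ 2 ∂mu := by
    apply Complex.ofReal_injective
    rw [← integral_complex_ofReal]
    have : ((‖y‖ ^ 2 : ℝ) : ℂ) = ⟪y, y⟫_ℂ := by
      rw [inner_self_eq_norm_sq_to_K]; simp
    rw [this, L2.inner_def]
    congr 1
    ext x
    rw [inner_self_eq_norm_sq_to_K]
    simp
  rw [h8, ← integral_const_mul]
  have hi : Integrable (fun x => ‖y x‖ ^ 2) mu := (Lp.memLp y).integrable_norm_pow (by norm_num)
  refine integral_mono_ae (hi.const_mul m) ?_ ?_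
  · refine hi.bdd_mul (c := 1) ha ?_
    filter_upwards [hb01] with x hx
    rw [Real.norm_eq_abs, abs_of_nonneg hx.1]
    exact hx.2
  · filter_upwards [hm] with x hx
    have : 0 ≤ ‖y x‖ ^ 2 := by positivity
    exact mul_le_mul_of_nonneg_right hx this

end mulop

lemma NN_nonneg (a : ℝ → ℝ) (hb01 : ∀ᵐ x ∂mu, 0 ≤ a x ∧ a x ≤ 1) (y : Lp ℂ 2 mu) :
    0 ≤ NN a y := by
  apply integral_nonneg_of_ae
  filter_upwards [hb01] with x hx
  have := hx.1
  positivity

lemma NN_smul_hb (a : ℝ → ℝ) (c : ℂ) (i : ℕ) :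
    NN a (c • hb i) = ‖c‖ ^ 2 * ∫ x, a x * e i x ^ 2 ∂mu := by
  unfold NN
  rw [← integral_const_mul]
  apply integral_congr_ae
  filter_upwards [Lp.coeFn_smul c (hb i), hb_coe i] with x h1 h2
  rw [h1, Pi.smul_apply, h2, smul_eq_mul, norm_mul, phi, Complex.norm_real, mul_pow,
    Real.norm_eq_abs, sq_abs]
  ring

end

end V11196.BB
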