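import Mathlib

/-! Diagonal `C₀`-semigroups attached to a Hilbert basis. -/

open Filter Topology Set MeasureTheory
open scoped InnerProductSpace ENNReal

namespace V11196.BB

noncomputable section

lemma l2_hasSum_sq (f : lp (fun _ : ℕ => ℂ) 2) :
    HasSum (fun j => ‖f j‖ ^ 2) (‖f‖ ^ 2) := by
  have h := lp.hasSum_norm (p := 2) (by simp) f
  simpa using h

/-- diagonal operator on `ℓ²` -/
def diagL (m : ℕ → ℂ) (C : ℝ) (hC0 : 0 ≤ C) (hC : ∀ j, ‖m j‖ ≤ C) :
    lp (fun _ : ℕ => ℂ) 2 →L[ℂ] lp (fun _ : ℕ => ℂ) 2 :=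
  have hb : ∀ (f : lp (fun _ : ℕ => ℂ) 2) j, ‖m j * f j‖ ^ 2 ≤ C ^ 2 * ‖f j‖ ^ 2 := by
    intro f j
    rw [norm_mul, mul_pow]
    have := hC j
    gcongr
  have hm : ∀ f : lp (fun _ : ℕ => ℂ) 2, Memℓp (fun j => m j * f j) 2 := by
    intro f
    apply memℓp_gen
    have h1 := (l2_hasSum_sq f).summable.mul_left (C ^ 2)
    have h2 : Summable fun j => ‖m j * f j‖ ^ 2 :=
      Summable.of_nonneg_of_le (fun j => by positivity) (hb f) h1
    simpa using h2
  LinearMap.mkContinuous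
    { toFun := fun f => ⟨fun j => m j * f j, hm f⟩
      map_add' := by
        intro f g
        ext j
        change m j * (f j + g j) = m j * f j + m j * g j
        ring
      map_smul' := by
        intro c f
        ext j
        simp [mul_left_comm] } C (by
      intro f
      have h1 := l2_hasSum_sq (⟨fun j => m j * f j, hm f⟩ : lp (fun _ : ℕ => ℂ) 2)
      have h2 := (l2_hasSum_sq f).mul_left (C ^ 2)
      have h3 := hasSum_le (hb f) h1 h2
      refine le_of_sq_le_sq ?_ (by positivity)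
      simpa [mul_pow] using h3)

lemma diagL_apply (m : ℕ → ℂ) (C : ℝ) (hC0 : 0 ≤ C) (hC : ∀ j, ‖m j‖ ≤ C)
    (f : lp (fun _ : ℕ => ℂ) 2) (j : ℕ) : diagL m C hC0 hC f j = m j * f j := rfl

variable {E : Type*} [NormedAddCommGroup E] [InnerProductSpace ℂ E]

/-- the multiplier `exp(-λ_j max(t,0))` -/
def mult (lam : ℕ → ℂ) (t : ℝ) (j : ℕ) : ℂ := Complex.exp (-(lam j) * (max t 0 : ℝ))

lemma norm_mult (lam : ℕ → ℂ) (t : ℝ) (j : ℕ) :
    ‖mult lam t j‖ = Real.exp (-(lam j).re * max t 0) := by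
  unfold mult
  rw [Complex.norm_exp]
  congr 1
  rw [Complex.mul_re]
  simp only [Complex.neg_re, Complex.neg_im, Complex.ofReal_re, Complex.ofReal_im]
  ring

lemma norm_mult_le (lam : ℕ → ℂ) (κ : ℝ) (h : ∀ j, -κ ≤ (lam j).re) (t : ℝ) (j : ℕ) :
    ‖mult lam t j‖ ≤ Real.exp (κ * max t 0) := by
  rw [norm_mult]
  apply Real.exp_le_exp.mpr
  apply mul_le_mul_of_nonneg_right _ (le_max_right _ _)
  linarith [h j]

/-- the diagonal semigroup -/
def SG (b : HilbertBasis ℕ ℂ E) (lam : ℕ → ℂ) (κ : ℝ) (h : ∀ j, -κ ≤ (lam j).re) (t : ℝ) :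
    E →L[ℂ] E :=
  (b.repr.symm.toContinuousLinearEquiv : lp (fun _ : ℕ => ℂ) 2 →L[ℂ] E) ∘L
    (diagL (mult lam t) (Real.exp (κ * max t 0)) (Real.exp_pos _).le (norm_mult_le lam κ h t)) ∘L
    (b.repr.toContinuousLinearEquiv : E →L[ℂ] lp (fun _ : ℕ => ℂ) 2)

section
variable (b : HilbertBasis ℕ ℂ E) (lam : ℕ → ℂ) (κ : ℝ) (h : ∀ j, -κ ≤ (lam j).re)

lemma repr_SG (t : ℝ) (y : E) (j : ℕ) :
    b.repr (SG b lam κ h t y) j = mult lam t j * b.repr y j := by
  simp [SG, diagL_apply]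

lemma norm_sq_hasSum (y : E) : HasSum (fun j => ‖b.repr y j‖ ^ 2) (‖y‖ ^ 2) := by
  have := l2_hasSum_sq (b.repr y)
  rwa [LinearIsometryEquiv.norm_map] at this

lemma ext_repr {x y : E} (hxy : ∀ j, b.repr x j = b.repr y j) : x = y := by
  apply b.repr.injective
  ext j
  exact hxy j

lemma mult_zero (j : ℕ) : mult lam 0 j = 1 := by simp [mult]

lemma mult_of_nonneg {t : ℝ} (ht : 0 ≤ t) (j : ℕ) :
    mult lam t j = Complex.exp (-(lam j) * t) := by simp [mult, ht]

lemma mult_add {s t : ℝ} (hs : 0 ≤ s) (ht : 0 ≤ t) (j : ℕ) :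
    mult lam (s + t) j = mult lam s j * mult lam t j := by
  rw [mult_of_nonneg lam hs, mult_of_nonneg lam ht, mult_of_nonneg lam (add_nonneg hs ht),
    ← Complex.exp_add]
  congr 1
  push_cast
  ring

lemma SG_zero : SG b lam κ h 0 = 1 := by
  ext1 y
  apply ext_repr b
  intro j
  rw [repr_SG, mult_zero]
  simp

lemma SG_add {s t : ℝ} (hs : 0 ≤ s) (ht : 0 ≤ t) :
    SG b lam κ h (s + t) = SG b lam κ h s ∘L SG b lam κ h t := by
  ext1 y
  apply ext_repr b
  intro j
  rw [ContinuousLinearMap.comp_apply, repr_SG, repr_SG, repr_SG, mult_add lam hs ht]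
  ring

lemma repr_basis (i j : ℕ) : b.repr (b i) j = if j = i then 1 else 0 := by
  rw [b.repr_self, lp.single_apply, Pi.single_apply]

lemma SG_basis (t : ℝ) (i : ℕ) : SG b lam κ h t (b i) = mult lam t i • b i := by
  apply ext_repr b
  intro j
  rw [repr_SG, map_smul]
  simp only [lp.coeFn_smul, Pi.smul_apply, smul_eq_mul, repr_basis]
  by_cases hj : j = i
  · subst hj; simp
  · simp [hj]

lemma continuous_mult (j : ℕ) : Continuous (fun t => mult lam t j) := by
  unfold mult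
  fun_prop

lemma SG_continuous (y : E) : Continuous (fun t => SG b lam κ h t y) := by
  rw [continuous_iff_continuousAt]
  intro s
  rw [ContinuousAt, tendsto_iff_norm_sub_tendsto_zero]
  have hs : ∀ t, ‖SG b lam κ h t y - SG b lam κ h s y‖ ^ 2
      = ∑' j, ‖(mult lam t j - mult lam s j) * b.repr y j‖ ^ 2 := by
    intro t
    rw [← (norm_sq_hasSum b _).tsum_eq]
    congr 1
    ext j
    rw [map_sub]
    simp only [lp.coeFn_sub, Pi.sub_apply]
    rw [repr_SG, repr_SG, sub_mul]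
  have hsq : Tendsto (fun t => ‖SG b lam κ h t y - SG b lam κ h s y‖ ^ 2) (𝓝 s) (𝓝 0) := by
    simp_rw [hs]
    have h0 : (0:ℝ) = ∑' j : ℕ, (0:ℝ) := by simp
    rw [h0]
    set K : ℝ := Real.exp (|κ| * (|s| + 1)) with hK
    have hb1 : ∀ t, |t| ≤ |s| + 1 → ∀ j, ‖mult lam t j‖ ≤ K := by
      intro t ht j
      refine (norm_mult_le lam κ h t j).trans ?_
      apply Real.exp_le_exp.mpr
      have h1 : max t 0 ≤ |s| + 1 := max_le ((le_abs_self t).trans ht) (by positivity)
      have h2 : 0 ≤ max t 0 := le_max_right _ _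
      calc κ * max t 0 ≤ |κ| * max t 0 := mul_le_mul_of_nonneg_right (le_abs_self κ) h2
        _ ≤ |κ| * (|s| + 1) := mul_le_mul_of_nonneg_left h1 (abs_nonneg κ)
    refine tendsto_tsum_of_dominated_convergence (bound := fun j => (K + K) ^ 2 * ‖b.repr y j‖ ^ 2)
      ?_ ?_ ?_
    · exact (norm_sq_hasSum b y).summable.mul_left _
    · intro j
      have hc : Continuous fun t => ‖(mult lam t j - mult lam s j) * b.repr y j‖ ^ 2 := by
        have := continuous_mult lam j
        fun_prop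
      have := hc.tendsto s
      simpa using this
    · have hev : ∀ᶠ t in 𝓝 s, |t| ≤ |s| + 1 := by
        have : ∀ᶠ t in 𝓝 s, |t| < |s| + 1 :=
          (continuous_abs.tendsto s).eventually (gt_mem_nhds (by linarith))
        exact this.mono fun t ht => ht.le
      filter_upwards [hev] with t ht j
      rw [norm_pow, norm_norm, norm_mul, mul_pow]
      have h1 : ‖mult lam t j - mult lam s j‖ ≤ K + K :=
        (norm_sub_le _ _).trans (add_le_add (hb1 t ht j) (hb1 s (by linarith [abs_nonneg s]) j))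
      gcongr
  have := (Real.continuous_sqrt.tendsto 0).comp hsq
  simpa [Function.comp_def, Real.sqrt_sq] using this

/-- generator on basis vectors -/
lemma gen_basis (i : ℕ) :
    Tendsto (fun t : ℝ => ((t : ℂ)⁻¹) • (b i - SG b lam κ h t (b i))) (𝓝[>] 0)
      (𝓝 (lam i • b i)) := by
  have h1 : HasDerivAt (fun t : ℝ => Complex.exp (-(lam i) * t)) (-(lam i)) 0 := by
    have h2 : HasDerivAt (fun t : ℝ => -(lam i) * (t : ℂ)) (-(lam i)) 0 := by
      have := (Complex.ofRealCLM.hasDerivAt (x := (0:ℝ))).const_mul (-(lam i))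
      simpa using this
    have h3 := h2.cexp
    simpa using h3
  have h4 := h1.tendsto_slope_zero_right
  have h5 : Tendsto (fun t : ℝ => -(t⁻¹ • (Complex.exp (-(lam i) * ((0 + t : ℝ) : ℂ)) -
      Complex.exp (-(lam i) * ((0:ℝ) : ℂ))))) (𝓝[>] 0) (𝓝 (lam i)) := by
    have := h4.neg
    simpa using this
  have h6 := h5.smul_const (b i)
  refine h6.congr' ?_
  filter_upwards [self_mem_nhdsWithin] with t ht
  have ht' : (0:ℝ) < t := ht
  rw [SG_basis, mult_of_nonneg lam ht'.le]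
  have h7 : b i - Complex.exp (-(lam i) * t) • b i = (1 - Complex.exp (-(lam i) * t)) • b i := by
    rw [sub_smul, one_smul]
  rw [h7, smul_smul]
  congr 1
  simp
  ring

end

end

end V11196.BB
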