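import Pool.Agent.V11196.BB.Est

/-! Time integration: both bounds on the observability constant. -/

open Filter Topology Set MeasureTheory
open scoped InnerProductSpace ENNReal ComplexConjugate

namespace V11196.BB

noncomputable section

lemma lam_re_zero : (lam 0).re = -1 := by simp [lam]
lemma lam_re_one : (lam 1).re = -1 / 2 := by simp [lam]
lemma lam_re_two : (lam 2).re = 1 / 2 := by simp [lam]
lemma lam_re_three : (lam 3).re = 1 := by simp [lam]
lemma lam_re_add (n : ℕ) : (lam (n + 4)).re = n + 4 := by simp [lam]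

lemma lam_mono : Monotone fun j => (lam j).re := by
  apply monotone_nat_of_le_succ
  intro n
  match n with
  | 0 => rw [lam_re_zero, lam_re_one]; norm_num
  | 1 => rw [lam_re_one, lam_re_two]; norm_num
  | 2 => rw [lam_re_two, lam_re_three]; norm_num
  | 3 =>
    have := lam_re_add 0
    simp only [zero_add] at this
    rw [lam_re_three, this]; norm_num
  | (k + 4) =>
    have h1 := lam_re_add k
    have h2 := lam_re_add (k + 1)
    have h3 : k + 4 + 1 = k + 1 + 4 := by ring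
    rw [h3, h1, h2]; push_cast; linarith

lemma lam_lower (j : ℕ) : -1 ≤ (lam j).re := by
  have := lam_mono (Nat.zero_le j)
  simp only at this
  rw [lam_re_zero] at this
  exact this

lemma lam_re_nonneg (j : ℕ) (hj : 2 ≤ j) : 0 ≤ (lam j).re := by
  have := lam_mono hj
  simp only at this
  rw [lam_re_two] at this
  linarith

lemma lam_tendsto : Tendsto (fun j => (lam j).re) atTop atTop := by
  apply tendsto_atTop_mono' atTop (f₁ := fun j : ℕ => (j : ℝ)) _ tendsto_natCast_atTop_atTop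
  filter_upwards [eventually_ge_atTop 4] with j hj
  obtain ⟨n, rfl⟩ := Nat.exists_eq_add_of_le hj
  rw [add_comm 4 n, lam_re_add]
  push_cast
  exact le_rfl

/-- the semigroup -/
abbrev St (t : ℝ) : Lp ℂ 2 mu →L[ℂ] Lp ℂ 2 mu := SG hb lam 1 lam_lower t

/-- the optimal value -/
def Cbar : ℝ := (1 - uu ^ 2) / (3 + uu)

lemma tail_ge (y : Lp ℂ 2 mu) (t : ℝ) (ht0 : 0 ≤ t) (ht1 : t ≤ 1) :
    ‖St 1 y‖ ^ 2 - ‖hb.repr (St 1 y) 0‖ ^ 2 - ‖hb.repr (St 1 y) 1‖ ^ 2 ≤
    ‖St t y‖ ^ 2 - ‖hb.repr (St t y) 0‖ ^ 2 - ‖hb.repr (St t y) 1‖ ^ 2 := by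
  have hs : ∀ s, HasSum (fun n => ‖hb.repr (St s y) (n + 2)‖ ^ 2)
      (‖St s y‖ ^ 2 - ‖hb.repr (St s y) 0‖ ^ 2 - ‖hb.repr (St s y) 1‖ ^ 2) := by
    intro s
    have h1 := (hasSum_nat_add_iff' 2).mpr (norm_sq_hasSum hb (St s y))
    rw [Finset.sum_range_succ, Finset.sum_range_one] at h1
    rw [sub_sub]
    exact h1
  refine hasSum_le (fun n => ?_) (hs 1) (hs t)
  rw [repr_SG, repr_SG, norm_mul, norm_mul, norm_mult, norm_mult]
  have h0 : max (1:ℝ) 0 = 1 := by norm_num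
  have h1 : max t 0 = t := max_eq_left ht0
  have h2 := lam_re_nonneg (n + 2) (by omega)
  rw [h0, h1]
  have h3 : Real.exp (-(lam (n + 2)).re * 1) ≤ Real.exp (-(lam (n + 2)).re * t) := by
    apply Real.exp_le_exp.mpr
    nlinarith
  gcongr

lemma mult_z0 (t : ℝ) (ht : 0 ≤ t) : mult lam t 0 = ((Real.exp t : ℝ) : ℂ) := by
  rw [mult_of_nonneg lam ht]
  simp [lam]

lemma mult_z1 (t : ℝ) (ht : 0 ≤ t) : mult lam t 1 = ((Real.exp (t / 2) : ℝ) : ℂ) := by
  rw [mult_of_nonneg lam ht]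
  simp only [lam]
  push_cast
  congr 1
  ring

lemma mult_z2 (t : ℝ) (ht : 0 ≤ t) : mult lam t 2 = ((Real.exp (-(t / 2)) : ℝ) : ℂ) *
    ((Real.cos (2 * Real.pi * t) : ℂ) - Real.sin (2 * Real.pi * t) * Complex.I) := by
  rw [mult_of_nonneg lam ht]
  have h : -(lam 2) * (t : ℂ) = ((-(t / 2) : ℝ) : ℂ) + ((-(2 * Real.pi * t) : ℝ) : ℂ) * Complex.I := by
    simp only [lam]; push_cast; ring
  rw [h, Complex.exp_add, Complex.exp_mul_I, ← Complex.ofReal_cos, ← Complex.ofReal_sin,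
    Real.cos_neg, Real.sin_neg, ← Complex.ofReal_exp]
  push_cast
  ring

lemma mult_z3 (t : ℝ) (ht : 0 ≤ t) : mult lam t 3 = ((Real.exp (-t) : ℝ) : ℂ) *
    ((Real.cos (2 * Real.pi * t) : ℂ) - Real.sin (2 * Real.pi * t) * Complex.I) := by
  rw [mult_of_nonneg lam ht]
  have h : -(lam 3) * (t : ℂ) = ((-t : ℝ) : ℂ) + ((-(2 * Real.pi * t) : ℝ) : ℂ) * Complex.I := by
    simp only [lam]; push_cast; ring
  rw [h, Complex.exp_add, Complex.exp_mul_I, ← Complex.ofReal_cos, ← Complex.ofReal_sin,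
    Real.cos_neg, Real.sin_neg, ← Complex.ofReal_exp]
  push_cast
  ring

lemma int_cos_period : ∫ t in (0:ℝ)..1, Real.cos (2 * Real.pi * t) = 0 := by
  have h : (2 * Real.pi) ≠ 0 := by positivity
  rw [intervalIntegral.integral_comp_mul_left (fun x => Real.cos x) h, integral_cos]
  simp

lemma int_sin_period : ∫ t in (0:ℝ)..1, Real.sin (2 * Real.pi * t) = 0 := by
  have h : (2 * Real.pi) ≠ 0 := by positivity
  rw [intervalIntegral.integral_comp_mul_left (fun x => Real.sin x) h, integral_sin]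
  simp

lemma int_exp_mul (c : ℝ) (hc : c ≠ 0) :
    ∫ t in (0:ℝ)..1, Real.exp (c * t) = (Real.exp c - 1) / c := by
  rw [intervalIntegral.integral_comp_mul_left (fun x => Real.exp x) hc, integral_exp]
  simp
  ring

lemma exp_one_uu : Real.exp 1 * uu = 1 := by
  unfold uu
  rw [← Real.exp_add]; simp

lemma exp_two_eq : Real.exp 2 = Real.exp 1 ^ 2 := by
  rw [← Real.exp_nat_mul]; norm_num

lemma lower_bound (y : Lp ℂ 2 mu) :
    Cbar * ‖St 1 y‖ ^ 2 ≤ ∫ t in (0:ℝ)..1, NN astar (St t y) := by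
  set c0 := hb.repr y 0 with hc0
  set c1 := hb.repr y 1 with hc1
  set c2 := hb.repr y 2 with hc2
  set c3 := hb.repr y 3 with hc3
  set K : ℂ := conj c0 * c3 + conj c1 * c2 with hK
  set R : ℝ := ‖St 1 y‖ ^ 2 - ‖hb.repr (St 1 y) 0‖ ^ 2 - ‖hb.repr (St 1 y) 1‖ ^ 2 with hR
  have hR0 : 0 ≤ R := by
    have h1 := (hasSum_nat_add_iff' 2).mpr (norm_sq_hasSum hb (St 1 y))
    rw [Finset.sum_range_succ, Finset.sum_range_one] at h1
    have h2 := h1.nonneg (fun n => by positivity)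
    rw [hR]; linarith
  set F : ℝ → ℝ := fun t => (1 / 2 + del / 2) * ‖c0‖ ^ 2 * Real.exp (2 * t)
    + (1 / 2 - del / 2) * ‖c1‖ ^ 2 * Real.exp (1 * t)
    - del * K.re * Real.cos (2 * Real.pi * t) - del * K.im * Real.sin (2 * Real.pi * t)
    + (1 / 2 - del) * R with hF
  have hpt : ∀ t ∈ Icc (0:ℝ) 1, F t ≤ NN astar (St t y) := by
    intro t ht
    have h1 := pointwise_bound (St t y)
    have h2 := tail_ge y t ht.1 ht.2
    have h0 : hb.repr (St t y) 0 = ((Real.exp t : ℝ) : ℂ) * c0 := by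
      rw [repr_SG, mult_z0 t ht.1]
    have h0' : hb.repr (St t y) 1 = ((Real.exp (t / 2) : ℝ) : ℂ) * c1 := by
      rw [repr_SG, mult_z1 t ht.1]
    have h0'' : hb.repr (St t y) 2 = ((Real.exp (-(t / 2)) : ℝ) : ℂ) *
        ((Real.cos (2 * Real.pi * t) : ℂ) - Real.sin (2 * Real.pi * t) * Complex.I) * c2 := by
      rw [repr_SG, mult_z2 t ht.1]
    have h0''' : hb.repr (St t y) 3 = ((Real.exp (-t) : ℝ) : ℂ) *
        ((Real.cos (2 * Real.pi * t) : ℂ) - Real.sin (2 * Real.pi * t) * Complex.I) * c3 := by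
      rw [repr_SG, mult_z3 t ht.1]
    have n0 : ‖hb.repr (St t y) 0‖ ^ 2 = Real.exp (2 * t) * ‖c0‖ ^ 2 := by
      rw [h0, norm_mul, Complex.norm_real, Real.norm_eq_abs, abs_of_pos (Real.exp_pos t), mul_pow,
        ← Real.exp_nat_mul]
      norm_num
    have n1 : ‖hb.repr (St t y) 1‖ ^ 2 = Real.exp (1 * t) * ‖c1‖ ^ 2 := by
      rw [h0', norm_mul, Complex.norm_real, Real.norm_eq_abs, abs_of_pos (Real.exp_pos _), mul_pow,
        ← Real.exp_nat_mul]
      congr 2
      push_cast; ring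
    have hcr : conj (hb.repr (St t y) 0) * hb.repr (St t y) 3 +
        conj (hb.repr (St t y) 1) * hb.repr (St t y) 2 =
        ((Real.cos (2 * Real.pi * t) : ℂ) - Real.sin (2 * Real.pi * t) * Complex.I) * K := by
      rw [h0, h0', h0'', h0''', hK, map_mul, map_mul, Complex.conj_ofReal, Complex.conj_ofReal]
      have m1 : ((Real.exp t : ℝ) : ℂ) * ((Real.exp (-t) : ℝ) : ℂ) = 1 := by
        rw [← Complex.ofReal_mul, ← Real.exp_add]; simp
      have m2 : ((Real.exp (t / 2) : ℝ) : ℂ) * ((Real.exp (-(t / 2)) : ℝ) : ℂ) = 1 := by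
        rw [← Complex.ofReal_mul, ← Real.exp_add]; simp
      generalize ((Real.exp t : ℝ) : ℂ) = A1 at *
      generalize ((Real.exp (-t) : ℝ) : ℂ) = A2 at *
      generalize ((Real.exp (t / 2) : ℝ) : ℂ) = A3 at *
      generalize ((Real.exp (-(t / 2)) : ℝ) : ℂ) = A4 at *
      generalize ((Real.cos (2 * Real.pi * t) : ℂ) - Real.sin (2 * Real.pi * t) * Complex.I) = A5
      linear_combination (A5 * conj c0 * c3) * m1 + (A5 * conj c1 * c2) * m2
    have hcre : (conj (hb.repr (St t y) 0) * hb.repr (St t y) 3 +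
        conj (hb.repr (St t y) 1) * hb.repr (St t y) 2).re =
        K.re * Real.cos (2 * Real.pi * t) + K.im * Real.sin (2 * Real.pi * t) := by
      rw [hcr]
      simp only [Complex.mul_re, Complex.sub_re, Complex.sub_im, Complex.ofReal_re,
        Complex.ofReal_im, Complex.mul_im, Complex.I_re, Complex.I_im]
      ring
    rw [hcre] at h1
    have hd := del_lt
    have h3 : (1 / 2 - del) * R ≤ (1 / 2 - del) * (‖St t y‖ ^ 2 - ‖hb.repr (St t y) 0‖ ^ 2
        - ‖hb.repr (St t y) 1‖ ^ 2) := by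
      apply mul_le_mul_of_nonneg_left h2
      linarith
    rw [n0, n1] at h1 h3
    rw [hF]
    simp only
    nlinarith [h1, h3]
  have hcF : Continuous F := by rw [hF]; fun_prop
  have hcN : Continuous fun t => NN astar (St t y) :=
    (NN_continuous astar astar_meas astar_b).comp (SG_continuous hb lam 1 lam_lower y)
  have hmono : ∫ t in (0:ℝ)..1, F t ≤ ∫ t in (0:ℝ)..1, NN astar (St t y) :=
    intervalIntegral.integral_mono_on (by norm_num) (hcF.intervalIntegrable _ _)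
      (hcN.intervalIntegrable _ _) hpt
  refine le_trans ?_ hmono
  have hintF : ∫ t in (0:ℝ)..1, F t = (1 / 2 + del / 2) * ‖c0‖ ^ 2 * ((Real.exp 2 - 1) / 2)
      + (1 / 2 - del / 2) * ‖c1‖ ^ 2 * ((Real.exp 1 - 1) / 1) + (1 / 2 - del) * R := by
    rw [hF]
    rw [intervalIntegral.integral_add (by apply Continuous.intervalIntegrable; fun_prop)
      (by apply Continuous.intervalIntegrable; fun_prop),
      intervalIntegral.integral_sub (by apply Continuous.intervalIntegrable; fun_prop)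
      (by apply Continuous.intervalIntegrable; fun_prop),
      intervalIntegral.integral_sub (by apply Continuous.intervalIntegrable; fun_prop)
      (by apply Continuous.intervalIntegrable; fun_prop),
      intervalIntegral.integral_add (by apply Continuous.intervalIntegrable; fun_prop)
      (by apply Continuous.intervalIntegrable; fun_prop)]
    simp only [intervalIntegral.integral_const_mul, int_cos_period, int_sin_period,
      intervalIntegral.integral_const]
    rw [int_exp_mul 2 (by norm_num), int_exp_mul 1 (by norm_num)]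
    simp
  rw [hintF]
  have m0 : ‖hb.repr (St 1 y) 0‖ ^ 2 = Real.exp 1 ^ 2 * ‖c0‖ ^ 2 := by
    rw [repr_SG, mult_z0 1 (by norm_num), norm_mul, Complex.norm_real, Real.norm_eq_abs,
      abs_of_pos (Real.exp_pos 1), mul_pow]
  have m1 : ‖hb.repr (St 1 y) 1‖ ^ 2 = Real.exp 1 * ‖c1‖ ^ 2 := by
    rw [repr_SG, mult_z1 1 (by norm_num), norm_mul, Complex.norm_real, Real.norm_eq_abs,
      abs_of_pos (Real.exp_pos _), mul_pow, ← Real.exp_nat_mul]
    congr 2
    norm_num
  have hE : Real.exp 1 = 1 / uu := by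
    rw [eq_div_iff uu_pos.ne']; exact exp_one_uu
  have hS : ‖St 1 y‖ ^ 2 = R + Real.exp 1 ^ 2 * ‖c0‖ ^ 2 + Real.exp 1 * ‖c1‖ ^ 2 := by
    rw [hR, m0, m1]; ring
  rw [hS, exp_two_eq, hE]
  have hu := uu_pos
  have hu1 := uu_gt
  have h3u : (3 + uu) ≠ 0 := by positivity
  have hu0 : uu ≠ 0 := hu.ne'
  have k1 : (1 / 2 + del / 2) = 2 / (3 + uu) := by
    unfold del; field_simp; ring
  have k2 : (1 / 2 - del / 2) = (1 + uu) / (3 + uu) := by
    unfold del; field_simp; ring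
  have k3 : (1 / 2 - del) - Cbar = (2 * uu ^ 2 + 3 * uu - 1) / (2 * (3 + uu)) := by
    unfold del Cbar; field_simp; ring
  have k4 : 0 ≤ (1 / 2 - del) - Cbar := by
    rw [k3]
    apply div_nonneg
    · nlinarith
    · positivity
  have k5 : Cbar * ((1 / uu) ^ 2 * ‖c0‖ ^ 2) = 2 / (3 + uu) * ‖c0‖ ^ 2 * (((1 / uu) ^ 2 - 1) / 2) := by
    unfold Cbar; field_simp
  have k6 : Cbar * ((1 / uu) * ‖c1‖ ^ 2)
      = (1 + uu) / (3 + uu) * ‖c1‖ ^ 2 * (((1 / uu) - 1) / 1) := by
    unfold Cbar; field_simp; ring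
  rw [k1, k2, ← k5, ← k6]
  have k7 : Cbar * R ≤ (1 / 2 - del) * R := mul_le_mul_of_nonneg_right (by linarith) hR0
  nlinarith [k7]

lemma upper0 (a : ℝ → ℝ) :
    (∫ t in (0:ℝ)..1, NN a (St t (hb 0))) / ‖St 1 (hb 0)‖ ^ 2
      = (1 - uu ^ 2) / 2 * ∫ x, a x * e 0 x ^ 2 ∂mu := by
  have h1 : ∫ t in (0:ℝ)..1, NN a (St t (hb 0)) = ∫ t in (0:ℝ)..1,
      Real.exp (2 * t) * ∫ x, a x * e 0 x ^ 2 ∂mu := by
    apply intervalIntegral.integral_congr
    intro t ht
    rw [uIcc_of_le (by norm_num)] at ht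
    simp only
    rw [SG_basis, NN_smul_hb, norm_mult, lam_re_zero, max_eq_left ht.1, ← Real.exp_nat_mul]
    congr 2
    push_cast; ring
  rw [h1, intervalIntegral.integral_mul_const, int_exp_mul 2 (by norm_num), SG_basis, norm_smul,
    norm_mult, lam_re_zero]
  have h2 : ‖hb 0‖ = 1 := hb.orthonormal.1 0
  rw [h2, exp_two_eq]
  have hE : Real.exp 1 = 1 / uu := by
    rw [eq_div_iff uu_pos.ne']; exact exp_one_uu
  have h3 : Real.exp (-(-1) * max 1 0) = Real.exp 1 := by norm_num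
  rw [h3, hE]
  have hu0 : uu ≠ 0 := uu_pos.ne'
  field_simp

lemma upper1 (a : ℝ → ℝ) :
    (∫ t in (0:ℝ)..1, NN a (St t (hb 1))) / ‖St 1 (hb 1)‖ ^ 2
      = (1 - uu) * ∫ x, a x * e 1 x ^ 2 ∂mu := by
  have h1 : ∫ t in (0:ℝ)..1, NN a (St t (hb 1)) = ∫ t in (0:ℝ)..1,
      Real.exp (1 * t) * ∫ x, a x * e 1 x ^ 2 ∂mu := by
    apply intervalIntegral.integral_congr
    intro t ht
    rw [uIcc_of_le (by norm_num)] at ht
    simp only
    rw [SG_basis, NN_smul_hb, norm_mult, lam_re_one, max_eq_left ht.1, ← Real.exp_nat_mul]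
    congr 2
    push_cast; ring
  rw [h1, intervalIntegral.integral_mul_const, int_exp_mul 1 (by norm_num), SG_basis, norm_smul,
    norm_mult, lam_re_one]
  have h2 : ‖hb 1‖ = 1 := hb.orthonormal.1 1
  have hE : Real.exp 1 = 1 / uu := by
    rw [eq_div_iff uu_pos.ne']; exact exp_one_uu
  have h3 : Real.exp (-(-1 / 2) * max 1 0) ^ 2 = Real.exp 1 := by
    rw [← Real.exp_nat_mul]; norm_num
  rw [h2, mul_one, h3, hE]
  have hu0 : uu ≠ 0 := uu_pos.ne'
  field_simp

lemma A_sum (a : ℝ → ℝ) (ha : AEStronglyMeasurable a mu)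
    (hb01 : ∀ᵐ x ∂mu, 0 ≤ a x ∧ a x ≤ 1) :
    (∫ x, a x * e 0 x ^ 2 ∂mu) + ∫ x, a x * e 1 x ^ 2 ∂mu = 2 / Real.pi * ∫ x, a x ∂mu := by
  have hpi := Real.pi_pos
  have hint : ∀ i, Integrable (fun x => a x * e i x ^ 2) mu := by
    intro i
    have h1 : Integrable (fun x => e i x ^ 2) mu := by
      have : IntegrableOn (fun x => e i x ^ 2) (Icc 0 Real.pi) volume := by
        apply Continuous.integrableOn_Icc
        exact (continuous_e i).pow 2
      exact this.mono_set Ioo_subset_Icc_self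
    refine h1.bdd_mul (c := 1) ha ?_
    filter_upwards [hb01] with x hx
    rw [Real.norm_eq_abs, abs_of_nonneg hx.1]
    exact hx.2
  rw [← integral_add (hint 0) (hint 1), ← integral_const_mul]
  congr 1
  ext x
  rw [e_zero, e_one, mul_pow, mul_pow, Real.sq_sqrt (by positivity)]
  have h := Real.sin_sq_add_cos_sq x
  linear_combination (a x * (2 / Real.pi)) * h

end

end V11196.BB
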